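import Mathlib

/-! The complement of countably many `C^1` images of a space of codimension at least two is dense
and path connected. -/

set_option autoImplicit false

namespace Pool.Agent.Lib.MP_1c0d65_gt.G

open Set Topology Module Filter

variable {E : Type*} [NormedAddCommGroup E] [NormedSpace ℝ E]

/-- `S` is covered by countably many images of subsets of `F` under maps that are `C^1` there. -/
def Thin (F : Type*) [NormedAddCommGroup F] [NormedSpace ℝ F] (S : Set E) : Prop :=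
  ∃ (f : ℕ → F → E) (V : ℕ → Set F), (∀ k, ∀ v ∈ V k, ContDiffAt ℝ 1 (f k) v) ∧
    S ⊆ ⋃ k, f k '' V k

variable {F : Type*} [NormedAddCommGroup F] [NormedSpace ℝ F] {S S' : Set E}

theorem Thin.mono (h : Thin F S) (h' : S' ⊆ S) : Thin F S' := by
  obtain ⟨f, V, hf, hS⟩ := h
  exact ⟨f, V, hf, h'.trans hS⟩

theorem Thin.empty : Thin F (∅ : Set E) :=
  ⟨fun _ _ => 0, fun _ => ∅, fun _ _ h => h.elim, empty_subset _⟩

theorem Thin.image {f : F → E} {V : Set F} (h : ∀ v ∈ V, ContDiffAt ℝ 1 f v) : Thin F (f '' V) :=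
  ⟨fun _ => f, fun _ => V, fun _ => h, subset_iUnion (fun _ : ℕ => f '' V) 0⟩

theorem Thin.iUnion {ι : Type*} [Countable ι] {T : ι → Set E} (h : ∀ i, Thin F (T i)) :
    Thin F (⋃ i, T i) := by
  rcases isEmpty_or_nonempty ι with hι | hι
  · rw [iUnion_of_empty]; exact Thin.empty
  choose f V hf hT using h
  obtain ⟨g, hg⟩ := exists_surjective_nat (ι × ℕ)
  refine ⟨fun k => f (g k).1 (g k).2, fun k => V (g k).1 (g k).2, fun k => hf _ _, ?_⟩
  intro x hx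
  obtain ⟨i, hi⟩ := mem_iUnion.1 hx
  obtain ⟨j, hj⟩ := mem_iUnion.1 (hT i hi)
  obtain ⟨k, hk⟩ := hg (i, j)
  exact mem_iUnion.2 ⟨k, by simpa only [hk] using hj⟩

theorem Thin.union (h : Thin F S) (h' : Thin F S') : Thin F (S ∪ S') := by
  rw [union_eq_iUnion]
  exact Thin.iUnion fun b => by cases b <;> assumption

theorem Thin.of_countable (h : S.Countable) : Thin F S := by
  have := h.to_subtype
  refine (Thin.iUnion (T := fun s : S => (fun _ : F => s.1) '' univ)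
    fun s => Thin.image fun _ _ => contDiffAt_const).mono fun x hx => ?_
  exact mem_iUnion.2 ⟨⟨x, hx⟩, 0, trivial, rfl⟩

theorem Thin.cone (h : Thin F S) (a : E) :
    Thin (F × ℝ) {c | ∃ s ∈ S, ∃ t : ℝ, c = a + t • (s - a)} := by
  obtain ⟨f, V, hf, hS⟩ := h
  refine ⟨fun k p => a + p.2 • (f k p.1 - a), fun k => V k ×ˢ univ, fun k p hp => ?_, ?_⟩
  · exact contDiffAt_const.add (contDiffAt_snd.smul
      (((hf k p.1 hp.1).comp p contDiffAt_fst).sub contDiffAt_const))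
  · rintro c ⟨s, hs, t, rfl⟩
    obtain ⟨k, v, hv, rfl⟩ := mem_iUnion.1 (hS hs)
    exact mem_iUnion.2 ⟨k, (v, t), ⟨hv, trivial⟩, rfl⟩

variable [FiniteDimensional ℝ F]

theorem Thin.dimH_le (h : Thin F S) : dimH S ≤ finrank ℝ F := by
  obtain ⟨f, V, hf, hS⟩ := h
  refine (dimH_mono hS).trans ?_
  rw [dimH_iUnion]
  refine iSup_le fun k => (dimH_image_le_of_locally_lipschitzOn fun v hv => ?_).trans
    ((dimH_mono (subset_univ _)).trans (Real.dimH_univ_eq_finrank F).le)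
  obtain ⟨K, t, ht, hK⟩ := (hf k v hv).exists_lipschitzOnWith
  exact ⟨K, t, nhdsWithin_le_nhds ht, hK⟩

variable [FiniteDimensional ℝ E]

theorem Thin.dense (h : Thin F S) (hd : finrank ℝ F < finrank ℝ E) : Dense Sᶜ :=
  dense_compl_of_dimH_lt_finrank (h.dimH_le.trans_lt (Nat.cast_lt.2 hd))

theorem segment_subset_of_not_cone {U : Set E} (hc : Convex ℝ U) {a c : E} (ha : a ∈ U \ S)
    (hcU : c ∈ U) (h : c ∉ {c | ∃ s ∈ S, ∃ t : ℝ, c = a + t • (s - a)}) :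
    segment ℝ a c ⊆ U \ S := by
  intro x hx
  refine ⟨hc.segment_subset ha.1 hcU hx, fun hxS => ?_⟩
  rw [segment_eq_image'] at hx
  obtain ⟨t, -, rfl⟩ := hx
  by_cases ht : t = 0
  · exact ha.2 (by simpa [ht] using hxS)
  · exact h ⟨_, hxS, t⁻¹, by simp [smul_smul, ht]⟩

theorem Thin.joinedIn (h : Thin F S) (hd : finrank ℝ F + 1 < finrank ℝ E) {U : Set E}
    (hU : IsOpen U) (hc : Convex ℝ U) {a b : E} (ha : a ∈ U \ S) (hb : b ∈ U \ S) :
    JoinedIn (U \ S) a b := by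
  have hd' : finrank ℝ (F × ℝ) < finrank ℝ E := by simpa using hd
  obtain ⟨c, hcU, hc'⟩ := (((h.cone a).union (h.cone b)).dense hd').inter_open_nonempty U hU
    ⟨a, ha.1⟩
  have h₁ := segment_subset_of_not_cone hc ha hcU fun e => hc' (Or.inl e)
  have h₂ := segment_subset_of_not_cone hc hb hcU fun e => hc' (Or.inr e)
  exact (((convex_segment a c).isPathConnected ⟨a, left_mem_segment ℝ a c⟩).joinedIn a
    (left_mem_segment ℝ a c) c (right_mem_segment ℝ a c)).mono h₁ |>.trans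
    ((((convex_segment b c).isPathConnected ⟨b, left_mem_segment ℝ b c⟩).joinedIn b
      (left_mem_segment ℝ b c) c (right_mem_segment ℝ b c)).mono h₂).symm

section Chart

variable {X : Type*} [TopologicalSpace X] {O T : Set X}

/-- Near every point of `O` the set `T` is thin in some chart. -/
def ThinOn (E F : Type*) [NormedAddCommGroup E] [NormedSpace ℝ E] [NormedAddCommGroup F]
    [NormedSpace ℝ F] (O T : Set X) : Prop :=
  ∀ x ∈ O, ∃ e : OpenPartialHomeomorph X E, x ∈ e.source ∧ Thin F (e '' (T ∩ e.source))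

theorem ThinOn.nonempty (h : ThinOn E F O T) (hd : finrank ℝ F < finrank ℝ E) {W : Set X}
    (hW : IsOpen W) (hx : (W ∩ O).Nonempty) : (W \ T).Nonempty := by
  obtain ⟨x, hxW, hxO⟩ := hx
  obtain ⟨e, hxe, he⟩ := h x hxO
  obtain ⟨c, ⟨y, hy, rfl⟩, hc⟩ := (he.dense hd).inter_open_nonempty (e '' (e.source ∩ W))
    (e.isOpen_image_source_inter hW) ⟨e x, x, ⟨hxe, hxW⟩, rfl⟩
  exact ⟨y, hy.2, fun hT => hc ⟨y, ⟨hT, hy.1⟩, rfl⟩⟩

theorem ThinOn.dense (h : ThinOn E F univ T) (hd : finrank ℝ F < finrank ℝ E) : Dense Tᶜ :=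
  dense_iff_inter_open.2 fun W hW hx => h.nonempty hd hW (by simpa using hx)

theorem ThinOn.exists_nhd (h : ThinOn E F O T) (hd : finrank ℝ F + 1 < finrank ℝ E)
    (hO : IsOpen O) {x : X} (hx : x ∈ O) : ∃ W, IsOpen W ∧ x ∈ W ∧ W ⊆ O ∧
      ∀ a ∈ W \ T, ∀ b ∈ W \ T, JoinedIn (O \ T) a b := by
  obtain ⟨e, hxe, he⟩ := h x hx
  obtain ⟨r, hr, hb⟩ := Metric.isOpen_iff.1 (e.isOpen_image_source_inter hO) (e x)
    ⟨x, ⟨hxe, hx⟩, rfl⟩
  have ht : Metric.ball (e x) r ⊆ e.target := fun c hc => by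
    obtain ⟨y, hy, rfl⟩ := hb hc
    exact e.map_source hy.1
  have hs : ∀ c ∈ Metric.ball (e x) r, e.symm c ∈ O := fun c hc => by
    obtain ⟨y, hy, rfl⟩ := hb hc
    rw [e.left_inv hy.1]
    exact hy.2
  refine ⟨e.source ∩ e ⁻¹' Metric.ball (e x) r, e.isOpen_inter_preimage Metric.isOpen_ball,
    ⟨hxe, Metric.mem_ball_self hr⟩, fun y hy => e.left_inv hy.1 ▸ hs _ hy.2, fun a ha b hb' => ?_⟩
  have key : ∀ y ∈ (e.source ∩ e ⁻¹' Metric.ball (e x) r) \ T,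
      e y ∈ Metric.ball (e x) r \ e '' (T ∩ e.source) := fun y hy =>
    ⟨hy.1.2, fun ⟨y', hy', e'⟩ => hy.2 (e.injOn hy'.2 hy.1.1 e' ▸ hy'.1)⟩
  have j := (he.joinedIn hd Metric.isOpen_ball (convex_ball _ _) (key a ha) (key b hb')).map_continuousOn
    (e.continuousOn_symm.mono fun c hc => ht hc.1)
  rw [e.left_inv ha.1.1, e.left_inv hb'.1.1] at j
  refine j.mono ?_
  rintro _ ⟨c, hc, rfl⟩
  exact ⟨hs c hc.1, fun hT => hc.2 ⟨_, ⟨hT, e.map_target (ht hc.1)⟩, e.right_inv (ht hc.1)⟩⟩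

theorem ThinOn.joinedIn (h : ThinOn E F O T) (hd : finrank ℝ F + 1 < finrank ℝ E) (hO : IsOpen O)
    (hc : IsPreconnected O) {a b : X} (ha : a ∈ O \ T) (hb : b ∈ O \ T) : JoinedIn (O \ T) a b := by
  choose! W hWo hWx hWO hWj using fun x (hx : x ∈ O) => h.exists_nhd hd hO hx
  have hd' : finrank ℝ F < finrank ℝ E := Nat.lt_of_succ_lt hd
  let A : Set X := ⋃ x ∈ {x ∈ O | ∀ c ∈ W x \ T, JoinedIn (O \ T) a c}, W x
  have hA : IsOpen A := isOpen_biUnion fun x hx => hWo x hx.1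
  have hOA : O ⊆ A := hc.subset_of_closure_inter_subset hA
    ⟨a, ha.1, mem_biUnion (⟨ha.1, fun c hc => hWj a ha.1 a ⟨hWx a ha.1, ha.2⟩ c hc⟩ :
      a ∈ {x ∈ O | ∀ c ∈ W x \ T, JoinedIn (O \ T) a c}) (hWx a ha.1)⟩ fun x ⟨hxA, hx⟩ => by
    obtain ⟨y, hyW, hyA⟩ := mem_closure_iff.1 hxA _ (hWo x hx) (hWx x hx)
    obtain ⟨x', hx', hy'⟩ := mem_iUnion₂.1 hyA
    obtain ⟨c, hc, hcT⟩ := h.nonempty hd' ((hWo x hx).inter (hWo x' hx'.1))
      ⟨y, ⟨hyW, hy'⟩, hWO x hx hyW⟩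
    exact mem_biUnion (⟨hx, fun d hd => (hx'.2 c ⟨hc.2, hcT⟩).trans (hWj x hx c ⟨hc.1, hcT⟩ d hd)⟩ :
      x ∈ {x ∈ O | ∀ c ∈ W x \ T, JoinedIn (O \ T) a c}) (hWx x hx)
  obtain ⟨x, hx, hbx⟩ := mem_iUnion₂.1 (hOA hb.1)
  exact hx.2 b ⟨hbx, hb.2⟩

theorem ThinOn.isPathConnected (h : ThinOn E F O T) (hd : finrank ℝ F + 1 < finrank ℝ E)
    (hO : IsOpen O) (hc : IsConnected O) : IsPathConnected (O \ T) := by
  obtain ⟨a, ha⟩ := h.nonempty (Nat.lt_of_succ_lt hd) hO (by simpa using hc.nonempty)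
  exact ⟨a, ha, fun b hb => h.joinedIn hd hO hc.isPreconnected ha hb⟩

theorem ThinOn.isPathConnected_compl [ConnectedSpace X] (h : ThinOn E F univ T)
    (hd : finrank ℝ F + 1 < finrank ℝ E) : IsPathConnected Tᶜ := by
  simpa only [← compl_eq_univ_sdiff] using h.isPathConnected hd isOpen_univ isConnected_univ

omit [FiniteDimensional ℝ E] [FiniteDimensional ℝ F] in
/-- Countably many maps that are `C^1` in the charts `e x` have a thin union of images. -/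
theorem thinOn_of_maps {ι : Type*} [Countable ι] (e : X → OpenPartialHomeomorph X E)
    (he : ∀ x ∈ O, x ∈ (e x).source) (u : ι → F → X) (V : ι → Set F)
    (hu : ∀ x ∈ O, ∀ k, ∀ v ∈ V k, u k v ∈ (e x).source → ContDiffAt ℝ 1 (e x ∘ u k) v)
    (hT : T ⊆ ⋃ k, u k '' V k) : ThinOn E F O T := fun x hx =>
  ⟨e x, he x hx, (Thin.iUnion (T := fun k => (e x ∘ u k) '' {v ∈ V k | u k v ∈ (e x).source})
    fun k => Thin.image fun v hv => hu x hx k v hv.1 hv.2).mono (by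
      rintro _ ⟨y, ⟨hyT, hy⟩, rfl⟩
      obtain ⟨k, v, hv, rfl⟩ := mem_iUnion.1 (hT hyT)
      exact mem_iUnion.2 ⟨k, v, ⟨hv, hy⟩, rfl⟩)⟩

open scoped Manifold in
omit [FiniteDimensional ℝ E] [FiniteDimensional ℝ F] in
/-- The same for maps into a manifold. -/
theorem thinOn_of_contMDiffAt [ChartedSpace E X] [IsManifold 𝓘(ℝ, E) 1 X] {ι : Type*}
    [Countable ι] (u : ι → F → X) (V : ι → Set F)
    (hu : ∀ k, ∀ v ∈ V k, ContMDiffAt 𝓘(ℝ, F) 𝓘(ℝ, E) 1 (u k) v) (hT : T ⊆ ⋃ k, u k '' V k) :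
    ThinOn E F O T :=
  thinOn_of_maps (chartAt E) (fun x _ => mem_chart_source E x) u V (fun x _ k v hv h =>
    contMDiffAt_iff_contDiffAt.1 (((contMDiffOn_chart (I := 𝓘(ℝ, E)) (n := 1)).contMDiffAt
      ((chartAt E x).open_source.mem_nhds h)).comp v (hu k v hv))) hT

end Chart

end Pool.Agent.Lib.MP_1c0d65_gt.G
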