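import Pool.Agent.Lib.MP_1c0d65_gt.G.Sys

/-! An anticanonical cycle with chains: the reduced case, moving curves, small cases. -/

set_option autoImplicit false

namespace Pool.Agent.Lib.MP_1c0d65_gt.G

open Finset Module

/-- a table with `n` chains `E`, discrepancies `d` and the facts on chains that are used -/
structure Sys (V : Type) [AddCommGroup V] [Module ℝ V] (S : Type) [Fintype S] [DecidableEq S]
    (n : ℕ) extends Tab V S where
  E : Finset S
  idx : S → Fin n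
  d : S → ℝ
  conn : toTab.Conn
  onto : ∀ i, ∃ x ∈ E, idx x = i
  same : ∀ x ∈ E, ∀ y ∈ E, 0 < I x y → idx x = idx y
  negE : ∀ x ∈ E, I x x ≤ -2
  dfE : ∀ x ∈ E, df x = 0
  cnt : ∑ x ∈ E, ∑ y ∈ E.erase x, I x y ≤ 2 * (E.card - n)
  deg : ∀ x ∈ E, (E.filter fun y => 0 < I x y).card ≤ 2
  d0 : ∀ x, 0 ≤ d x
  d1 : ∀ x, d x < 1
  dE : ∀ x ∉ E, d x = 0
  half : ∀ x ∈ E, d x < 1 / 2 → I x x = -2
  bud : ∀ x ∈ E, (-(I x x : ℝ) - 2) * (1 - d x) ≤ 1
  key : ∀ x ∈ E, d x < 1 / 2 → ∑ y ∈ E.erase x, μ y * I x y ≤ μ x - 1 → 1 ≤ (μ x + 1) * d x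
  ME : ∀ x ∈ E, ∑ y, (μ y - d y) * I x y = 0
  MC : ∀ x ∉ E, 0 < ∑ y, (μ y - d y) * I x y

variable {V : Type} [AddCommGroup V] [Module ℝ V] {S : Type} [Fintype S] [DecidableEq S] {n : ℕ}

namespace Sys

variable (X : Sys V S n)

/-- the nef and big class -/
def M : V := X.cb fun y => X.μ y - X.d y

theorem M_E {x : S} (hx : x ∈ X.E) : X.B X.M (X.c x) = 0 := by rw [M, X.B_cb, X.ME x hx]

theorem md_pos (y : S) : (0 : ℝ) < X.μ y - X.d y := by
  have : (1 : ℝ) ≤ X.μ y := by exact_mod_cast X.μ1 y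
  linarith [X.d1 y]

theorem M_sq {x : S} (hx : x ∉ X.E) : 0 < X.B X.M X.M := by
  rw [M, X.B_cb_cb]
  refine sum_pos' (fun z _ => mul_nonneg (X.md_pos z).le ?_)
    ⟨x, mem_univ _, mul_pos (X.md_pos x) (X.MC x hx)⟩
  by_cases h : z ∈ X.E
  · exact (X.ME z h).ge
  · exact (X.MC z h).le

theorem notMem_of_mov {x : S} (h : 0 ≤ X.I x x) : x ∉ X.E := fun e => by
  linarith [X.negE x e]

theorem n_le : n ≤ X.E.card := by
  have := card_le_card_of_surjOn (s := X.E) (t := univ) X.idx fun i _ => by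
    obtain ⟨x, hx, e⟩ := X.onto i
    exact ⟨x, hx, e⟩
  simpa using this

theorem card_E [FiniteDimensional ℝ V] {x : S} (hx : x ∉ X.E) : X.E.card ≤ finrank ℝ V := by
  refine X.card_le _ fun a ha h0 y => ?_
  have h1 : X.cb (fun y => |a y|) = 0 := by
    by_contra e
    have := X.hodge X.M _ (X.M_sq hx) ?_ e
    · have h2 := X.abs_sq a
      rw [h0] at h2
      simp only [map_zero] at h2
      linarith
    · rw [Tab.cb, map_sum]
      refine sum_eq_zero fun y _ => ?_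
      by_cases hy : y ∈ X.E
      · rw [map_smul, X.M_E hy, smul_zero]
      · simp [ha y hy]
  refine X.conn (fun y => a y = 0) (fun y z hy _ h => ?_) x (ha x hx) y
  exact abs_eq_zero.1 (X.zar (a := fun y => |a y|) (fun _ => abs_nonneg _) (z := y)
    (by rw [h1]; simp) (abs_eq_zero.2 hy) (by rwa [X.I_comm]))

theorem sum_d_le {x : S} (hx : x ∉ X.E) (T : Finset S) :
    ∑ y ∈ T, X.d y * X.I x y < 2 - X.df x + X.I x x := by
  have h1 := X.MC x hx
  have h2 : ∑ y, (X.μ y : ℝ) * X.I x y = 2 - X.df x + X.I x x := by exact_mod_cast X.adj x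
  simp only [sub_mul, sum_sub_distrib, h2] at h1
  have : ∑ y ∈ T, X.d y * X.I x y ≤ ∑ y, X.d y * X.I x y :=
    sum_le_sum_of_subset_of_nonneg (subset_univ _) fun y _ _ => by
      by_cases e : x = y
      · rw [← e, X.dE x hx, zero_mul]
      · exact mul_nonneg (X.d0 y) (by exact_mod_cast X.nn _ _ e)
  linarith

/-- a negative curve outside the chains is exceptional -/
theorem exc {x : S} (hx : x ∉ X.E) (h : X.I x x < 0) : X.I x x = -1 ∧ X.df x = 0 := by
  have h1 := X.sum_d_le hx ∅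
  rw [sum_empty] at h1
  have h2 : 0 < 2 - X.df x + X.I x x := by exact_mod_cast h1
  have := X.df0 x
  omega

theorem reduced_case [FiniteDimensional ℝ V] {x y : S} (h : x ≠ y) (hx : X.μ x = 1)
    (hy : X.μ y = 1) (hI : 0 < X.I x y) : n + X.E.card ≤ finrank ℝ V + 2 := by
  have hμ := Tab.reduced X.conn h hx hy hI
  have h1 := Tab.card_reduced X.conn hμ h hI
  have h2 (z : S) (hz : z ∈ X.E) :
      ∑ w ∈ X.E.erase z, X.I z w + ∑ w ∈ X.Eᶜ, X.I z w = 2 := by
    have := X.adj z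
    simp only [hμ, one_mul, X.dfE z hz] at this
    rw [← sum_add_sum_compl X.E, ← add_sum_erase _ _ hz] at this
    linarith
  have h3 (z : S) (hz : z ∈ X.Eᶜ) : ∑ w ∈ X.E, X.I w z ≤ 2 := by
    have := X.sum_le_nb z (mem_compl.1 hz)
    simp only [hμ, one_mul, sub_self, zero_mul, sub_zero] at this
    simp only [X.I_comm _ z]
    linarith [X.df0 z]
  have h4 := sum_congr rfl h2
  rw [sum_add_distrib, sum_comm (t := X.Eᶜ), sum_const, nsmul_eq_mul] at h4
  have h5 := sum_le_sum h3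
  rw [sum_const, nsmul_eq_mul] at h5
  have h6 := X.cnt
  have h7 := card_add_card_compl X.E
  omega

/-- no two reduced curves are adjacent -/
def NR : Prop := ∀ x y, x ≠ y → X.μ x = 1 → 0 < X.I x y → X.μ y ≠ 1

variable {X}

theorem NR.leaf (h : X.NR) {x y : S} (hxy : x ≠ y) (hx : X.μ x = 1) (hI : 0 < X.I x y) :
    X.Leaf x y :=
  (Tab.leaf_of (by rw [hx]; simp) hxy (by have := h x y hxy hx hI; have := X.μ1 y; omega) hI).1

/-- a star: all neighbours of `s` are leaves -/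
theorem star {s : S} (h : ∀ y, s ≠ y → 0 < X.I s y → X.Leaf y s) (y : S) :
    y = s ∨ 0 < X.I s y := by
  refine X.conn (fun y => y = s ∨ 0 < X.I s y) ?_ s (Or.inl rfl) y
  intro y z hy hz hI
  by_cases e : s = y
  · exact Or.inr (e ▸ hI)
  · exact Or.inl ((h y e (hy.resolve_left (Ne.symm e))).2.2.2 z hz hI)

theorem card_le_sum {x : S} {T : Finset S} (h : ∀ y ∈ T, 0 < X.I x y) :
    (T.card : ℤ) ≤ ∑ y ∈ T, X.μ y * X.I x y := by
  rw [card_eq_sum_ones, Nat.cast_sum]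
  exact sum_le_sum fun y hy => by push_cast; nlinarith [X.μ1 y, h y hy]

theorem NR.moving (h : X.NR) (hn : 2 < n) {x : S} (hx : 0 ≤ X.I x x) :
    ∃ s, X.Leaf x s ∧ X.df x = 0 ∧ (X.μ x - 1) * X.I x x = 0 := by
  have h0 : 0 ≤ (X.μ x - 1) * X.I x x := mul_nonneg (by linarith [X.μ1 x]) hx
  by_cases e : ∃ y, x ≠ y ∧ 0 < X.I x y ∧ 2 ≤ X.μ y
  · obtain ⟨y, h1, h2, h3⟩ := e
    exact ⟨y, Tab.leaf_of h0 h1 h3 h2⟩
  · push Not at e
    have hs := star (X := X) (s := x) fun y h1 h2 => h.leaf h1.symm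
      (by have := e y h1 h2; have := X.μ1 y; omega) (by rwa [X.I_comm])
    have h1 := card_le_sum (X := X) (x := x) (T := X.E) fun y hy =>
      (hs y).resolve_left fun e => X.notMem_of_mov hx (e ▸ hy)
    have h2 := X.sum_le_nb x (X.notMem_of_mov hx)
    have := X.n_le
    have := X.df0 x
    omega

theorem two_moving (hn : 2 < n) {x y s t : S} (hxy : x ≠ y) (hx : 0 ≤ X.I x x) (hy : 0 ≤ X.I y y)
    (hs : X.Leaf x s) (ht : X.Leaf y t) : X.I x x = 0 ∧ s = t := by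
  have h0 : X.I x y = 0 := by
    by_contra e
    have h1 : 0 < X.I x y := lt_of_le_of_ne (X.nn _ _ hxy) (Ne.symm e)
    have e1 : y = s := hs.2.2.2 y hxy h1
    have e2 : x = t := ht.2.2.2 x hxy.symm (by rwa [X.I_comm])
    subst e1 e2
    have h2 := star (X := X) (s := x) fun z hz hI => by rwa [hs.2.2.2 z hz hI]
    obtain ⟨z, hz, -⟩ := X.onto ⟨0, by omega⟩
    rcases h2 z with rfl | h3
    · exact X.notMem_of_mov hx hz
    · have := hs.2.2.2 z (fun e => X.notMem_of_mov hx (e ▸ hz)) h3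
      exact X.notMem_of_mov hy (this ▸ hz)
  have ne {a b : S} (h : X.Leaf a b) : X.c a ≠ 0 := fun e => by
    have := X.hI a b
    rw [e, h.2.2.1] at this
    simp at this
  have z {a b : S} (hab : X.I a b = 0) (ha : 0 ≤ X.I a a) (hb : 0 ≤ X.I b b) (h : X.c b ≠ 0) :
      X.I a a = 0 := by
    by_contra e
    have := X.hodge (X.c a) (X.c b) (by rw [X.hI]; exact_mod_cast lt_of_le_of_ne ha (Ne.symm e))
      (by rw [X.hI, hab]; simp) h
    rw [X.hI] at this
    exact absurd hb (not_le.2 (by exact_mod_cast this))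
  have h1 := z h0 hx hy (ne ht)
  have h2 := z (by rwa [X.I_comm]) hy hx (ne hs)
  refine ⟨h1, ?_⟩
  obtain ⟨r, hr⟩ := Tab.prop_of_null (X := X.toTab) (X.M_sq (X.notMem_of_mov hx)) (f := X.c x)
    (v := X.c y) (by rw [X.hI, h1]; simp) (ne hs) (by rw [X.hI, h0]; simp) (by rw [X.hI, h2]; simp)
  have h3 := X.hI y t
  rw [hr, map_smul, LinearMap.smul_apply, X.hI, ht.2.2.1] at h3
  have h4 : X.I x t ≠ 0 := fun e => by simp [e] at h3
  have h5 : x ≠ t := fun e => h4 (e ▸ h1)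
  exact (hs.2.2.2 t h5 (lt_of_le_of_ne (X.nn _ _ h5) h4.symm)).symm

/-- the fibred case: all moving curves are fibres through the section `s` -/
structure Fib (X : Sys V S n) (s : S) : Prop where
  leaf : ∀ x, 0 ≤ X.I x x → X.Leaf x s ∧ X.I x x = 0 ∧ X.df x = 0
  three : 3 ≤ (univ.filter fun x => 0 ≤ X.I x x).card

theorem NR.fib (h : X.NR) (hn : 2 < n) {T : Finset S} (hT : ∀ x ∈ T, 0 ≤ X.I x x)
    (h3 : 3 ≤ ∑ x ∈ T, (X.I x x + 1)) (h2 : 2 ≤ ∑ x ∈ T, X.μ x) : ∃ s, X.Fib s := by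
  obtain ⟨a, ha, b, hb, hab⟩ : ∃ a ∈ T, ∃ b ∈ T, a ≠ b := by
    rw [← one_lt_card]
    by_contra! e
    rcases T.eq_empty_or_nonempty with rfl | ⟨a, ha⟩
    · simp at h2
    · obtain rfl : T = {a} := eq_singleton_iff_unique_mem.2
        ⟨ha, fun b hb => card_le_one.1 e b hb a ha⟩
      rw [sum_singleton] at h2 h3
      obtain ⟨s, -, -, h0⟩ := h.moving hn (hT a (mem_singleton_self a))
      nlinarith
  obtain ⟨s, hs, -⟩ := h.moving hn (hT a ha)
  obtain ⟨t, ht, -⟩ := h.moving hn (hT b hb)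
  obtain rfl := (two_moving hn hab (hT a ha) (hT b hb) hs ht).2
  have key (x : S) (hx : 0 ≤ X.I x x) : X.Leaf x s ∧ X.I x x = 0 ∧ X.df x = 0 := by
    obtain ⟨t, h1, h2, -⟩ := h.moving hn hx
    by_cases e : x = a
    · obtain ⟨h4, rfl⟩ := two_moving hn (e ▸ hab) hx (hT b hb) h1 ht
      exact ⟨h1, h4, h2⟩
    · obtain ⟨h4, rfl⟩ := two_moving hn e hx (hT a ha) h1 hs
      exact ⟨h1, h4, h2⟩
  refine ⟨s, key, le_trans ?_ (card_le_card (s := T) fun x hx => by simpa using hT x hx)⟩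
  rw [sum_congr rfl fun x hx => by rw [(key x (hT x hx)).2.1]] at h3
  simpa using h3

end Sys

end Pool.Agent.Lib.MP_1c0d65_gt.G
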