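import Pool.Agent.Lib.MP_1c0d65_gt.G.Abs

/-! The fibred case and the numerical bound. -/

set_option autoImplicit false

namespace Pool.Agent.Lib.MP_1c0d65_gt.G

open Finset Module

variable {V : Type} [AddCommGroup V] [Module ℝ V] {S : Type} [Fintype S] [DecidableEq S] {n : ℕ}

namespace Sys

variable {X : Sys V S n} {s : S}

theorem Fib.exists_f (h : X.Fib s) : ∃ f, 0 ≤ X.I f f := by
  obtain ⟨f, hf⟩ := card_pos.1 (lt_of_lt_of_le (by norm_num) h.three)
  exact ⟨f, (mem_filter.1 hf).2⟩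

theorem Fib.I_f (h : X.Fib s) {f : S} (hf : 0 ≤ X.I f f) {z : S} (hz : z ≠ s) : X.I f z = 0 := by
  by_cases e : f = z
  · rw [← e, (h.leaf f hf).2.1]
  · by_contra e'
    exact hz ((h.leaf f hf).1.2.2.2 z e (lt_of_le_of_ne (X.nn _ _ e) (Ne.symm e')))

theorem Fib.prop (h : X.Fib s) {f : S} (hf : 0 ≤ X.I f f) {v : V} (hv : X.B (X.c f) v = 0)
    (h0 : 0 ≤ X.B v v) : ∃ t : ℝ, (∀ z, z ≠ s → X.B v (X.c z) = 0) ∧ X.B v (X.c s) = t ∧
      X.B v v = 0 ∧ X.B (X.cb fun y => X.μ y) v = 2 * t := by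
  obtain ⟨⟨-, -, h1, -⟩, h2, h3⟩ := h.leaf f hf
  obtain ⟨t, rfl⟩ := Tab.prop_of_null (X := X.toTab) (X.M_sq (X.notMem_of_mov hf)) (f := X.c f)
    (by rw [X.hI, h2]; simp) (fun e => by
      have := X.hI f s
      rw [e, h1] at this
      simp at this) hv h0
  refine ⟨t, fun z hz => by simp [X.hI, h.I_f hf hz], by simp [X.hI, h1], by simp [X.hI, h2], ?_⟩
  have : ∑ y, (X.μ y : ℝ) * X.I f y = 2 - X.df f + X.I f f := by exact_mod_cast X.adj f
  rw [map_smul, X.B_cb, this, h2, h3]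
  simp [mul_comm]

theorem D_c (X : Sys V S n) (z : S) :
    X.B (X.cb fun y => X.μ y) (X.c z) = 2 - X.df z + X.I z z := by
  rw [X.B_cb]; exact_mod_cast X.adj z

/-- the weight of vertical neighbours of the section -/
theorem Fib.vert (h : X.Fib s) {T : Finset S} (hT : ∀ y ∈ T, y ≠ s ∧ X.I y y < 0) :
    ∑ y ∈ T, X.μ y * X.I s y + 1 ≤ -X.I s s := by
  obtain ⟨f, hf⟩ := h.exists_f
  have hs : ¬ 0 ≤ X.I s s := fun e => (h.leaf s e).1.1 rfl
  have h1 := X.sum_le_nb s (T := T ∪ univ.filter fun x => 0 ≤ X.I x x) (by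
    simp only [mem_union, mem_filter, not_or]
    exact ⟨fun e => (hT s e).1 rfl, fun e => hs e.2⟩)
  rw [sum_union (disjoint_left.2 fun y hy e => absurd (mem_filter.1 e).2 (not_le.2 (hT y hy).2)),
    (h.leaf f hf).1.2.1] at h1
  have h2 := card_le_sum (X := X) (x := s) (T := univ.filter fun x => 0 ≤ X.I x x) fun y hy => by
    rw [X.I_comm, (h.leaf y (mem_filter.1 hy).2).1.2.2.1]; norm_num
  have := h.three
  have := X.df0 s
  omega

theorem Fib.big (h : X.Fib s) (hr : X.NR) (hn : 2 < n) : s ∈ X.E ∧ 1 / 2 ≤ X.d s := by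
  have h3 : X.I s s ≤ -3 := by
    by_contra! e
    let N := univ.filter fun y => y ≠ s ∧ X.I y y < 0 ∧ 0 < X.I s y
    have hN (y : S) (hy : y ∈ N) := (mem_filter.1 hy).2
    have h1 := h.vert (T := N) fun y hy => ⟨(hN y hy).1, (hN y hy).2.1⟩
    have h2 := card_le_sum (X := X) (x := s) (T := N) fun y hy => (hN y hy).2.2
    have h4 := star (X := X) (s := s) fun y hy hI => by
      by_cases e' : 0 ≤ X.I y y
      · exact (h.leaf y e').1
      · have := h.vert (T := {y}) (by simpa using ⟨hy.symm, not_le.1 e'⟩)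
        rw [sum_singleton] at this
        exact hr.leaf hy.symm (by nlinarith [X.μ1 y]) (by rwa [X.I_comm])
    have h5 : X.E ⊆ insert s N := fun y hy => by
      by_cases e' : y = s
      · simp [e']
      · exact mem_insert_of_mem (mem_filter.2 ⟨mem_univ _, e', by linarith [X.negE y hy],
          (h4 y).resolve_left e'⟩)
    have := (card_le_card h5).trans (card_insert_le _ _)
    have := X.n_le
    omega
  have hs : s ∈ X.E := by
    by_contra e
    have := (X.exc e (by omega)).1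
    omega
  refine ⟨hs, ?_⟩
  by_contra! e
  have := X.half s hs e
  omega

section
variable (h : X.Fib s) {G : S} (hG : G ∉ X.E) (hG' : X.I G G < 0) (hs : s ∈ X.E)
include hG hG'

theorem d_lt (T : Finset S) : ∑ y ∈ T, X.d y * X.I G y < 1 := by
  have := X.sum_d_le hG T
  rw [(X.exc hG hG').1, (X.exc hG hG').2] at this
  norm_num at this
  exact this

include h hs

theorem Fib.adj_exc {G' : S} (h1 : G' ∉ X.E) (h2 : X.I G' G' < 0)
    (hI : 0 < X.I G G') {A : S} (hA : A ∈ X.E) (hAs : A ≠ s) : X.I G A = 0 := by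
  obtain ⟨f, hf⟩ := h.exists_f
  have a1 : G ≠ s := fun e => hG (e ▸ hs)
  have a2 : G' ≠ s := fun e => h1 (e ▸ hs)
  obtain ⟨t, h3, -⟩ := h.prop hf (v := X.c G + X.c G') (by simp [X.hI, h.I_f hf, a1, a2]) (by
    simp only [map_add, LinearMap.add_apply, X.hI, (X.exc hG hG').1, (X.exc h1 h2).1,
      X.I_comm G' G]
    have : (1 : ℝ) ≤ X.I G G' := by exact_mod_cast hI
    push_cast; linarith)
  have h4 := h3 A hAs
  simp only [map_add, LinearMap.add_apply, X.hI] at h4
  have h5 : X.I G A + X.I G' A = 0 := by exact_mod_cast h4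
  have := X.nn G A fun e => hG (e ▸ hA)
  have := X.nn G' A fun e => h1 (e ▸ hA)
  omega

theorem Fib.two_small {A A' : S} (hA : A ∈ X.E) (hA' : A' ∈ X.E) (hne : A ≠ A') (h1 : A ≠ s)
    (h2 : A' ≠ s) (d1 : X.d A < 1 / 2) (d2 : X.d A' < 1 / 2) (i1 : 0 < X.I G A)
    (i2 : 0 < X.I G A') {z : S} (hz : z ∈ X.E) (z1 : z ≠ A) (z2 : z ≠ A') : X.I G z = 0 := by
  obtain ⟨f, hf⟩ := h.exists_f
  have a1 : G ≠ s := fun e => hG (e ▸ hs)
  have j1 : (1 : ℝ) ≤ X.I G A := by exact_mod_cast i1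
  have j2 : (1 : ℝ) ≤ X.I G A' := by exact_mod_cast i2
  have j3 : (0 : ℝ) ≤ X.I A A' := by exact_mod_cast X.nn _ _ hne
  obtain ⟨t, h3, h4, -, h5⟩ := h.prop hf (v := (2 : ℝ) • X.c G + X.c A + X.c A')
    (by simp [X.hI, h.I_f hf, a1, h1, h2]) (by
    simp only [map_add, map_smul, LinearMap.add_apply, LinearMap.smul_apply, smul_eq_mul, X.hI,
      (X.exc hG hG').1, X.half A hA d1, X.half A' hA' d2, X.I_comm A G, X.I_comm A' G,
      X.I_comm A' A]
    push_cast; linarith)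
  simp only [map_add, map_smul, smul_eq_mul, D_c, (X.exc hG hG').1, (X.exc hG hG').2,
    X.half A hA d1, X.half A' hA' d2, X.dfE A hA, X.dfE A' hA'] at h5
  have h6 : X.B ((2 : ℝ) • X.c G + X.c A + X.c A') (X.c z) ≤ 1 := by
    by_cases e : z = s
    · rw [e, h4]; push_cast at h5; linarith
    · rw [h3 z e]; norm_num
  simp only [map_add, map_smul, LinearMap.add_apply, LinearMap.smul_apply, smul_eq_mul, X.hI] at h6
  have h7 : 2 * X.I G z + X.I A z + X.I A' z ≤ 1 := by exact_mod_cast h6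
  have := X.nn G z fun e => hG (e ▸ hz)
  have := X.nn A z z1.symm
  have := X.nn A' z z2.symm
  omega

theorem Fib.deg_exc (hd : 1 / 2 ≤ X.d s) : (X.E.filter fun A => 0 < X.I G A).card ≤ 2 := by
  by_contra! e
  obtain ⟨a, b, c, ha, hb, hc, hab, hac, hbc⟩ := two_lt_card_iff.1 e
  rw [mem_filter] at ha hb hc
  have h1 := d_lt hG hG' {a, b, c}
  rw [sum_insert (by simp [hab, hac]), sum_pair hbc] at h1
  have le {a : S} (h : 0 < X.I G a) : X.d a ≤ X.d a * X.I G a :=
    le_mul_of_one_le_right (X.d0 a) (by exact_mod_cast h)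
  have ne {a : S} (h : X.d a < 1 / 2) : a ≠ s := fun e => by rw [e] at h; linarith
  have := le ha.2
  have := le hb.2
  have := le hc.2
  have := X.d0 a
  have := X.d0 b
  have := X.d0 c
  by_cases e1 : X.d a < 1 / 2
  · by_cases e2 : X.d b < 1 / 2
    · exact hc.2.ne' (h.two_small hG hG' hs ha.1 hb.1 hab (ne e1) (ne e2) e1 e2 ha.2 hb.2 hc.1
        hac.symm hbc.symm)
    · have e3 : X.d c < 1 / 2 := by linarith
      exact hb.2.ne' (h.two_small hG hG' hs ha.1 hc.1 hac (ne e1) (ne e3) e1 e3 ha.2 hc.2 hb.1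
        hab.symm hbc)
  · have e2 : X.d b < 1 / 2 := by linarith
    have e3 : X.d c < 1 / 2 := by linarith
    exact ha.2.ne' (h.two_small hG hG' hs hb.1 hc.1 hbc (ne e2) (ne e3) e2 e3 hb.2 hc.2 ha.1
      hab hac)

theorem Fib.only (hd : 1 / 2 ≤ X.d s) (hI : 0 < X.I s G) {A : S} (hA : A ∈ X.E) (hAs : A ≠ s)
    (hI' : 0 < X.I G A) {y : S} (hy : y ≠ s) (hy' : X.I y y < 0) (hI'' : 0 < X.I s y) : y = G := by
  by_contra e
  have a1 : G ≠ s := fun e => hG (e ▸ hs)
  have a2 : G ≠ A := fun e => hG (e ▸ hA)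
  obtain ⟨f, hf⟩ := h.exists_f
  have h1 := d_lt hG hG' {s, A}
  rw [sum_pair hAs.symm, X.I_comm G s] at h1
  have le {a : S} {k : ℤ} (h : 0 < k) : X.d a ≤ X.d a * k :=
    le_mul_of_one_le_right (X.d0 a) (by exact_mod_cast h)
  have h2 := le (a := s) hI
  have h3 := le (a := A) hI'
  have h4 : X.d A < 1 / 2 := by linarith
  have h5 := X.two_le_nb a1 a2 hAs.symm
  rw [(X.exc hG hG').1, (X.exc hG hG').2, (h.leaf f hf).1.2.1, X.I_comm G s] at h5
  have h6 : X.μ A + 1 ≤ X.μ G := by nlinarith [X.μ1 A]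
  have h7 := X.sum_le_nb A (T := insert G (X.E.erase A)) (by simp [a2.symm])
  rw [sum_insert (fun e => hG (mem_of_mem_erase e)), X.half A hA h4, X.dfE A hA,
    X.I_comm A G] at h7
  have h8 := X.key A hA h4 (by nlinarith [X.μ1 G])
  have h9 := h.vert (T := {G, y}) (by simp [a1, hG', hy, hy'])
  rw [sum_pair (Ne.symm e)] at h9
  have h10 : X.μ A + 1 ≤ -X.I s s - 2 := by nlinarith [X.μ1 G, X.μ1 y]
  have h11 : (X.μ A : ℝ) + 1 ≤ -X.I s s - 2 := by exact_mod_cast h10
  have h12 := X.bud s hs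
  have h13 : (1 : ℝ) ≤ X.μ A := by exact_mod_cast X.μ1 A
  nlinarith [X.d1 s, X.d0 A]

end

/-- exceptional curves that meet a vertical chain curve -/
def J (X : Sys V S n) (s : S) : Finset S :=
  univ.filter fun G => G ∉ X.E ∧ X.I G G < 0 ∧ ∃ A ∈ X.E, A ≠ s ∧ 0 < X.I G A

theorem Fib.n_le_J (h : X.Fib s) (hs : s ∈ X.E) (hd : 1 / 2 ≤ X.d s) :
    n ≤ (X.J s).card + 1 := by
  have h1 (G : X.J s) : ∃ p q : Fin n, ∀ A ∈ X.E, 0 < X.I G A → X.idx A = p ∨ X.idx A = q := by
    obtain ⟨a, b, -⟩ := (mem_filter.1 G.2).2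
    have h2 := h.deg_exc a b hs hd
    by_contra! e
    obtain ⟨A, hA, i1, -, -⟩ := e (X.idx s) (X.idx s)
    obtain ⟨A', hA', i2, n1, -⟩ := e (X.idx A) (X.idx A)
    obtain ⟨A'', hA'', i3, n2, n3⟩ := e (X.idx A) (X.idx A')
    exact absurd (two_lt_card_iff.2 ⟨A, A', A'', mem_filter.2 ⟨hA, i1⟩, mem_filter.2 ⟨hA', i2⟩,
      mem_filter.2 ⟨hA'', i3⟩, fun e => n1 (e ▸ rfl), fun e => n2 (e ▸ rfl),
      fun e => n3 (e ▸ rfl)⟩) (not_lt.2 h2)
  choose p q hpq using h1
  let φ : (Fin n → ℝ) →ₗ[ℝ] (X.J s → ℝ) × ℝ :=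
    (LinearMap.pi fun G => (LinearMap.proj (p G) : (Fin n → ℝ) →ₗ[ℝ] ℝ) -
      LinearMap.proj (q G)).prod (LinearMap.proj (X.idx s))
  have inj : Function.Injective φ := by
    rw [injective_iff_map_eq_zero]
    intro y hy
    have y0 : y (X.idx s) = 0 := congrArg Prod.snd hy
    have y1 (G : X.J s) : y (p G) = y (q G) := sub_eq_zero.1 (congrFun (congrArg Prod.fst hy) G)
    have := X.conn (fun x => (x ∈ X.E → y (X.idx x) = 0) ∧
      (x ∉ X.E → ∀ A ∈ X.E, 0 < X.I x A → y (X.idx A) = 0)) ?_ s ⟨fun _ => y0, fun e => (e hs).elim⟩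
    · funext i
      obtain ⟨x, hx, rfl⟩ := X.onto i
      exact (this x).1 hx
    · rintro x z ⟨u1, u2⟩ hxz hI
      refine ⟨fun hz => ?_, fun hz A hA hI' => ?_⟩
      · by_cases hx : x ∈ X.E
        · rw [← X.same x hx z hz hI, u1 hx]
        · exact u2 hx z hz hI
      · by_cases e : A = s
        · rw [e, y0]
        have z0 : X.I z z < 0 := by
          by_contra! e'
          exact hI'.ne' (h.I_f e' e)
        by_cases hx : x ∈ X.E
        · let G : X.J s := ⟨z, mem_filter.2 ⟨mem_univ _, hz, z0, A, hA, e, hI'⟩⟩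
          have a1 := hpq G x hx (by rwa [X.I_comm])
          have a2 := hpq G A hA hI'
          have a3 := y1 G
          have a4 := u1 hx
          rcases a1 with a1 | a1 <;> rcases a2 with a2 | a2 <;> rw [a1] at a4 <;> rw [a2] <;>
            linarith
        · have x0 : X.I x x < 0 := by
            by_contra! e'
            exact hI.ne' (h.I_f e' fun e => hz (e ▸ hs))
          exact absurd (h.adj_exc hz z0 hs hx x0 (by rwa [X.I_comm]) hA e) hI'.ne'
  simpa using LinearMap.finrank_le_finrank_of_injective inj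

theorem Fib.bound [FiniteDimensional ℝ V] (h : X.Fib s) (hs : s ∈ X.E) (hd : 1 / 2 ≤ X.d s) :
    n + X.E.card ≤ finrank ℝ V + 2 := by
  obtain ⟨f, hf⟩ := h.exists_f
  have hJ (G : S) (hG : G ∈ X.J s) := (mem_filter.1 hG).2
  let Q := (X.E ∪ X.J s).filter fun y => 0 < X.I s y
  have neg (y : S) (hy : y ∈ X.E ∪ X.J s) : X.I y y < 0 := by
    rcases mem_union.1 hy with e | e
    exacts [by linarith [X.negE y e], (hJ y e).2.1]
  have hQ : Q.card ≤ 2 := by
    by_cases e : ∃ G ∈ X.J s, 0 < X.I s G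
    · obtain ⟨G, hG, hI⟩ := e
      obtain ⟨a, b, A, hA, hAs, hI'⟩ := hJ G hG
      refine (card_le_card (t := {G}) fun y hy => mem_singleton.2 ?_).trans (by simp)
      obtain ⟨h1, h2⟩ := mem_filter.1 hy
      exact h.only a b hs hd hI hA hAs hI' (fun e => by
        rw [e] at h2; linarith [X.negE s hs]) (neg y h1) h2
    · refine (card_le_card fun y hy => ?_).trans (X.deg s hs)
      obtain ⟨h1, h2⟩ := mem_filter.1 hy
      exact mem_filter.2 ⟨(mem_union.1 h1).resolve_right fun e' => e ⟨y, e', h2⟩, h2⟩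
  have hf' : f ∉ X.E ∪ X.J s := fun e => absurd hf (not_le.2 (neg f e))
  have fs : f ≠ s := (h.leaf f hf).1.1
  have h1 := X.card_le (insert f ((X.E ∪ X.J s) \ Q)) fun a ha h0 => by
    have sumf (b : S → ℝ) : X.B (X.cb b) (X.c f) = b s := by
      rw [X.B_cb, sum_eq_single s (fun y _ e => by simp [h.I_f hf e]) (by simp),
        (h.leaf f hf).1.2.2.1]
      simp
    have as : a s = 0 := by rw [← sumf a, h0]; simp
    let a' : S → ℝ := Function.update a f 0
    have e1 : X.cb a' = -(a f • X.c f) := by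
      rw [eq_neg_iff_add_eq_zero, ← h0, Tab.cb, Tab.cb, ← add_sum_erase _ _ (mem_univ f),
        ← add_sum_erase _ _ (mem_univ f), add_comm]
      simp only [a', Function.update_self, zero_smul, zero_add, add_right_inj]
      exact sum_congr rfl fun y hy => by rw [Function.update_of_ne (ne_of_mem_erase hy)]
    have as' : a' s = 0 := by simp [a', fs.symm, as]
    obtain ⟨t, h2, -⟩ := h.prop hf (v := X.cb fun y => |a' y|)
      (by rw [X.symm, sumf, as', abs_zero]) (le_trans (by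
        simp [e1, X.hI, (h.leaf f hf).2.1]) (X.abs_sq a'))
    have h3 (y : S) : a' y = 0 := by
      by_contra e
      refine X.conn (fun y => a' y ≠ 0) (fun y z hy _ hI hz => hy ?_) y e s as'
      by_cases zs : z = s
      · by_cases yf : y = f
        · simp [a', yf]
        · rw [show a' y = a y from Function.update_of_ne yf _ _] at hy ⊢
          by_contra e
          have := mem_sdiff.1 ((mem_insert.1 (not_not.1 (mt (ha y) e))).resolve_left yf)
          exact this.2 (mem_filter.2 ⟨this.1, by rwa [X.I_comm, ← zs]⟩)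
      · exact abs_eq_zero.1 (X.zar (a := fun y => |a' y|) (fun _ => abs_nonneg _) (h2 z zs)
          (abs_eq_zero.2 hz) hI)
    have h4 : a f = 0 := by
      have := congrArg (fun v => X.B v (X.c s)) e1
      simpa [Tab.cb, h3, X.hI, (h.leaf f hf).1.2.2.1] using this
    intro y
    by_cases yf : y = f
    · rw [yf, h4]
    · rw [← h3 y]; exact (Function.update_of_ne yf _ _).symm
  rw [card_insert_of_notMem (fun e => hf' (mem_sdiff.1 e).1),
    card_sdiff_of_subset (filter_subset _ _),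
    card_union_of_disjoint (disjoint_left.2 fun y hy e => (hJ y e).1 hy)] at h1
  have := h.n_le_J hs hd
  change _ - Q.card + 1 ≤ _ at h1
  omega

theorem main [FiniteDimensional ℝ V] (X : Sys V S n) {T : Finset S} (hT : ∀ x ∈ T, 0 ≤ X.I x x)
    (h3 : 3 ≤ ∑ x ∈ T, (X.I x x + 1)) (h2 : 2 ≤ ∑ x ∈ T, X.μ x) :
    n + X.E.card ≤ finrank ℝ V + 2 := by
  by_cases hn : 2 < n
  · by_cases hr : X.NR
    · obtain ⟨s, hs⟩ := hr.fib hn hT h3 h2
      exact hs.bound (hs.big hr hn).1 (hs.big hr hn).2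
    · simp only [NR, not_forall, not_not] at hr
      obtain ⟨x, y, h, hx, hI, hy⟩ := hr
      exact X.reduced_case h hx hy hI
  · obtain ⟨x, hx⟩ := T.eq_empty_or_nonempty.resolve_left fun e => by simp [e] at h2
    have := X.card_E (X.notMem_of_mov (hT x hx))
    omega

end Sys

end Pool.Agent.Lib.MP_1c0d65_gt.G
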