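import Pool.Agent.Lib.MP_1c0d65_gt.Wahl

/-! Hirzebruch-Jung rays `(be j, a j) / N` of the lattice `{(x, y) / N : y = r x mod N}`. -/

set_option autoImplicit false

namespace Pool.Agent.Lib.MP_1c0d65_gt.G

open Finset

/-- The continued fraction of `N / r`, with its remainders. -/
structure HJ (N r : ℤ) where
  l : ℕ
  a : ℕ → ℤ
  b : ℕ → ℤ
  a0 : a 0 = N
  a1 : a 1 = r
  al : a (l + 1) = 0
  two : ∀ j < l, 2 ≤ b j
  step : ∀ j < l, a (j + 2) = b j * a (j + 1) - a j

theorem exists_HJ {N r : ℤ} (h0 : 0 ≤ r) (h : r < N) : Nonempty (HJ N r) := by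
  induction hr : r.toNat using Nat.strong_induction_on generalizing N r with
  | _ m ih =>
    rcases h0.eq_or_lt with rfl | h1
    · exact ⟨⟨0, fun j => if j = 0 then N else 0, fun _ => 2, by simp, by simp, by simp,
        fun _ hj => absurd hj (Nat.not_lt_zero _), fun _ hj => absurd hj (Nat.not_lt_zero _)⟩⟩
    · have e := Int.emod_add_mul_ediv (-N) r
      have e0 := Int.emod_nonneg (-N) h1.ne'
      have e1 := Int.emod_lt_of_pos (-N) h1
      obtain ⟨H⟩ := ih ((-N) % r).toNat (by omega) e0 e1 rfl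
      refine ⟨⟨H.l + 1, fun j => Nat.casesOn j N H.a, fun j => Nat.casesOn j (-(-N / r)) H.b, rfl,
        H.a0, H.al, fun j hj => ?_, fun j hj => ?_⟩⟩
      · cases j with
        | zero => change 2 ≤ -(-N / r); nlinarith
        | succ j => exact H.two j (by omega)
      · cases j with
        | zero => change H.a 1 = -(-N / r) * H.a 0 - N; rw [H.a0, H.a1]; linarith
        | succ j => exact H.step j (by omega)

namespace HJ

variable {N r : ℤ} (H : HJ N r)

/-- The first coordinates of the rays. -/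
abbrev e (j : ℕ) : ℤ := be H.b j

theorem e0 : H.e 0 = 0 := rfl

theorem e1 : H.e 1 = 1 := rfl

theorem e_step (j : ℕ) : H.e (j + 2) = H.b j * H.e (j + 1) - H.e j := rfl

theorem e_nonneg {j : ℕ} (hj : j ≤ H.l + 1) : 0 ≤ H.e j := by
  cases j with
  | zero => exact le_rfl
  | succ j => have := be_mono H.two j (by omega); exact this.1.trans this.2.le

theorem e_lt {j : ℕ} (hj : j ≤ H.l) : H.e j < H.e (j + 1) := (be_mono H.two j hj).2

theorem e_pos {j : ℕ} (h : 0 < j) (hj : j ≤ H.l + 1) : 0 < H.e j := by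
  obtain ⟨j, rfl⟩ : ∃ k, j = k + 1 := ⟨j - 1, by omega⟩
  exact (H.e_nonneg (by omega)).trans_lt (H.e_lt (by omega))

theorem det {j : ℕ} (hj : j ≤ H.l) : H.a j * H.e (j + 1) - H.a (j + 1) * H.e j = N := by
  induction j with
  | zero => simp [be, H.a0]
  | succ j ih => rw [H.e_step, H.step j (by omega)]; linear_combination ih (by omega)

theorem cong {j : ℕ} (hj : j ≤ H.l + 1) : N ∣ H.a j - r * H.e j := by
  induction j using Nat.twoStepInduction with
  | zero => simp [be, H.a0]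
  | one => simp [be, H.a1]
  | more j h₁ h₂ =>
    rw [H.e_step, H.step j (by omega)]
    exact (dvd_sub ((h₂ (by omega)).mul_left (H.b j)) (h₁ (by omega))).trans (dvd_of_eq (by ring))

theorem a_lt (hN : 0 < N) {j : ℕ} (hj : j ≤ H.l) : 0 ≤ H.a (j + 1) ∧ H.a (j + 1) < H.a j := by
  have key : ∀ k j, j + k = H.l → 0 ≤ H.a (j + 1) ∧ H.a (j + 1) < H.a j := by
    intro k
    induction k with
    | zero =>
      rintro j rfl
      have h := H.det (le_refl H.l)
      have := H.e_pos H.l.succ_pos le_rfl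
      rw [H.al] at h
      change 0 ≤ H.a (H.l + 1) ∧ H.a (H.l + 1) < H.a H.l
      rw [H.al]
      exact ⟨le_rfl, by nlinarith⟩
    | succ k ih =>
      intro j hj
      obtain ⟨h₁, h₂⟩ := ih (j + 1) (by omega)
      have h₃ : 0 ≤ H.a (j + 1) := h₁.trans h₂.le
      have h₄ := mul_nonneg (sub_nonneg.2 (H.two j (by omega))) h₃
      rw [H.step j (by omega)] at h₂
      exact ⟨h₃, by linarith⟩
  exact key (H.l - j) j (by omega)

theorem a_nonneg (hN : 0 < N) {j : ℕ} (hj : j ≤ H.l + 1) : 0 ≤ H.a j := by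
  cases j with
  | zero => rw [H.a0]; exact hN.le
  | succ j => exact (H.a_lt hN (by omega)).1

theorem a_pos (hN : 0 < N) {j : ℕ} (hj : j ≤ H.l) : 0 < H.a j :=
  (H.a_lt hN hj).1.trans_lt (H.a_lt hN hj).2

theorem last (hN : 0 < N) (hc : IsCoprime N r) : H.a H.l = 1 ∧ H.e (H.l + 1) = N := by
  have h := H.det (le_refl H.l)
  have c := H.cong (le_refl (H.l + 1))
  rw [H.al] at h c
  obtain ⟨k, hk⟩ : N ∣ H.e (H.l + 1) := hc.dvd_of_dvd_mul_left (by simpa using c)
  have h1 : H.a H.l * k = 1 := mul_left_cancel₀ hN.ne' (by rw [hk] at h; linarith)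
  have h2 := Int.eq_one_of_mul_eq_one_right (H.a_pos hN le_rfl).le h1
  refine ⟨h2, ?_⟩
  rw [h2] at h
  linarith

/-- The rays turn clockwise. -/
theorem cross (hN : 0 < N) {i k : ℕ} (hik : i ≤ k) (hk : k ≤ H.l + 1) :
    H.e i * H.a k ≤ H.e k * H.a i := by
  have h₁ : H.e i ≤ H.e k ∧ H.a k ≤ H.a i := by
    induction k, hik using Nat.le_induction with
    | base => exact ⟨le_rfl, le_rfl⟩
    | succ k _ ih =>
      exact ⟨(ih (by omega)).1.trans (H.e_lt (by omega)).le,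
        (H.a_lt hN (by omega)).2.le.trans (ih (by omega)).2⟩
  exact mul_le_mul h₁.1 h₁.2 (H.a_nonneg hN hk) (H.e_nonneg hk)

/-- Every lattice point of the quadrant lies in one of the unimodular cones. -/
theorem decomp (hN : 0 < N) (hc : IsCoprime N r) {x y : ℤ} (hx : 0 ≤ x) (hy : 0 ≤ y)
    (h : N ∣ y - r * x) : ∃ j ≤ H.l, ∃ α β : ℕ,
      x = α * H.e j + β * H.e (j + 1) ∧ y = α * H.a j + β * H.a (j + 1) := by
  have hex : ∃ j, j ≤ H.l ∧ x * H.a (j + 1) ≤ y * H.e (j + 1) :=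
    ⟨H.l, le_rfl, by rw [H.al, (H.last hN hc).2]; simpa using mul_nonneg hy hN.le⟩
  classical
  obtain ⟨hj, h₁⟩ := Nat.find_spec hex
  have h₂ : y * H.e (Nat.find hex) ≤ x * H.a (Nat.find hex) := by
    rcases hk : Nat.find hex with _ | k
    · rw [H.e0, H.a0]; simpa using mul_nonneg hx hN.le
    · have := Nat.find_min hex (m := k) (by omega)
      exact le_of_not_ge fun e => this ⟨by omega, e⟩
  set j := Nat.find hex
  have d : ∀ i ≤ H.l + 1, N ∣ y * H.e i - x * H.a i := fun i hi =>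
    (dvd_sub (h.mul_left (H.e i)) ((H.cong hi).mul_left x)).trans (dvd_of_eq (by ring))
  obtain ⟨α, hα⟩ := d (j + 1) (by omega)
  obtain ⟨β, hβ⟩ := (d j (by omega)).neg_right
  have hα0 : 0 ≤ α := by nlinarith
  have hβ0 : 0 ≤ β := by nlinarith
  have w := H.det hj
  refine ⟨j, hj, α.toNat, β.toNat, ?_, ?_⟩ <;>
    rw [Int.toNat_of_nonneg hα0, Int.toNat_of_nonneg hβ0] <;> apply mul_left_cancel₀ hN.ne'
  · linear_combination (-x) * w + H.e j * hα + H.e (j + 1) * hβ
  · linear_combination (-y) * w + H.a j * hα + H.a (j + 1) * hβ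

/-- `N` times the negative of the inverse of the intersection matrix. -/
def g (i k : ℕ) : ℤ := H.e (min i k) * H.a (max i k)

theorem g_comm (i k : ℕ) : H.g i k = H.g k i := by rw [g, g, min_comm, max_comm]

theorem g_of_le {i k : ℕ} (h : i ≤ k) : H.g i k = H.e i * H.a k := by
  rw [g, min_eq_left h, max_eq_right h]

theorem g_zero (k : ℕ) : H.g 0 k = 0 := by rw [H.g_of_le (Nat.zero_le k), H.e0, zero_mul]

theorem g_last {i : ℕ} (h : i ≤ H.l + 1) : H.g i (H.l + 1) = 0 := by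
  rw [H.g_of_le h, H.al, mul_zero]

theorem g_eq_min (hN : 0 < N) {i k : ℕ} (hi : i ≤ H.l + 1) (hk : k ≤ H.l + 1) :
    H.g i k = min (H.e i * H.a k) (H.e k * H.a i) := by
  rcases le_total i k with h | h
  · rw [H.g_of_le h, min_eq_left (H.cross hN h hk)]
  · rw [H.g_comm, H.g_of_le h, min_eq_right (H.cross hN h hi)]

theorem g_nonneg (hN : 0 < N) {i k : ℕ} (hi : i ≤ H.l + 1) (hk : k ≤ H.l + 1) : 0 ≤ H.g i k :=
  mul_nonneg (H.e_nonneg (by omega)) (H.a_nonneg hN (by omega))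

/-- The Green identity of the chain. -/
theorem green {i : ℕ} (hi : i < H.l) (k : ℕ) :
    H.g i k + H.g (i + 2) k - H.b i * H.g (i + 1) k = if k = i + 1 then -N else 0 := by
  rcases lt_trichotomy k (i + 1) with h | rfl | h
  · rw [if_neg h.ne, H.g_comm i, H.g_comm (i + 2), H.g_comm (i + 1), H.g_of_le (by omega),
      H.g_of_le (by omega), H.g_of_le (by omega), H.step i hi]
    ring
  · rw [if_pos rfl, H.g_comm (i + 2), H.g_of_le (by omega), H.g_of_le (by omega), H.g_of_le le_rfl,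
      H.step i hi]
    linear_combination -H.det hi.le
  · rw [if_neg h.ne', H.g_of_le (by omega), H.g_of_le (by omega), H.g_of_le (by omega), H.e_step]
    ring

/-- The correction term of two lattice points in different cones. -/
theorem corr_lt {j k : ℕ} (h : j < k) (α β α' β' : ℤ) :
    α * α' * H.g j k + α * β' * H.g j (k + 1) + β * α' * H.g (j + 1) k +
      β * β' * H.g (j + 1) (k + 1) =
    (α * H.e j + β * H.e (j + 1)) * (α' * H.a k + β' * H.a (k + 1)) := by
  rw [H.g_of_le h.le, H.g_of_le (by omega), H.g_of_le h, H.g_of_le (by omega)]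
  ring

/-- The correction term of two lattice points in the same cone. -/
theorem corr_eq {j : ℕ} (hj : j ≤ H.l) (α β α' β' : ℤ) :
    α * α' * H.g j j + α * β' * H.g j (j + 1) + β * α' * H.g (j + 1) j +
      β * β' * H.g (j + 1) (j + 1) =
    (α * H.e j + β * H.e (j + 1)) * (α' * H.a j + β' * H.a (j + 1)) - N * (β * α') := by
  rw [H.g_comm (j + 1) j, H.g_of_le le_rfl, H.g_of_le j.le_succ, H.g_of_le le_rfl]
  linear_combination -(β * α') * H.det hj

/-- The correction term is at most both cross products. -/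
theorem corr_le (hN : 0 < N) {j k : ℕ} (hj : j ≤ H.l) (hk : k ≤ H.l) {α β α' β' : ℤ} (h₁ : 0 ≤ α)
    (h₂ : 0 ≤ β) (h₃ : 0 ≤ α') (h₄ : 0 ≤ β') :
    α * α' * H.g j k + α * β' * H.g j (k + 1) + β * α' * H.g (j + 1) k +
      β * β' * H.g (j + 1) (k + 1) ≤
    (α * H.e j + β * H.e (j + 1)) * (α' * H.a k + β' * H.a (k + 1)) := by
  have m : ∀ i ≤ H.l + 1, ∀ i' ≤ H.l + 1, H.g i i' ≤ H.e i * H.a i' := fun i hi i' hi' =>
    (H.g_eq_min hN hi hi').trans_le (min_le_left _ _)
  have m₁ := mul_le_mul_of_nonneg_left (m j (by omega) k (by omega)) (mul_nonneg h₁ h₃)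
  have m₂ := mul_le_mul_of_nonneg_left (m j (by omega) (k + 1) (by omega)) (mul_nonneg h₁ h₄)
  have m₃ := mul_le_mul_of_nonneg_left (m (j + 1) (by omega) k (by omega)) (mul_nonneg h₂ h₃)
  have m₄ := mul_le_mul_of_nonneg_left (m (j + 1) (by omega) (k + 1) (by omega)) (mul_nonneg h₂ h₄)
  linarith

/-- `N` times the log discrepancy of the ray `j`. -/
def c (j : ℕ) : ℤ := H.a j + H.e j

theorem c0 : H.c 0 = N := by rw [c, H.a0, H.e0, add_zero]

theorem c_last (hN : 0 < N) (hc : IsCoprime N r) : H.c (H.l + 1) = N := by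
  rw [c, H.al, (H.last hN hc).2, zero_add]

theorem c_step {j : ℕ} (hj : j < H.l) : H.c (j + 2) = H.b j * H.c (j + 1) - H.c j := by
  rw [c, c, c, H.step j hj, H.e_step]; ring

theorem c_pos (hN : 0 < N) {j : ℕ} (hj : j ≤ H.l + 1) : 0 < H.c j := by
  rcases Nat.eq_zero_or_pos j with rfl | h
  · rwa [H.c0]
  · exact add_pos_of_nonneg_of_pos (H.a_nonneg hN hj) (H.e_pos h hj)

end HJ

section Wahl

variable {p q : ℤ}

theorem wahl_coprime (p q : ℤ) : IsCoprime (p ^ 2) (p * q - 1) :=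
  ⟨q ^ 2, -(p * q + 1), by ring⟩

theorem exists_wahl (hq : 0 < q) (hqp : q < p) : Nonempty (HJ (p ^ 2) (p * q - 1)) :=
  exists_HJ (by nlinarith) (by nlinarith)

theorem HJ.isWahl (H : HJ (p ^ 2) (p * q - 1)) (hq : 0 < q) (hqp : q < p) (hc : IsCoprime p q) :
    IsWahl H.l H.b :=
  ⟨p, q, H.a, hq, hqp, hc, H.a0, H.a1, H.al, fun j hj => ⟨H.two j hj, H.step j hj⟩⟩

theorem HJ.l_pos (H : HJ (p ^ 2) (p * q - 1)) (hq : 0 < q) (hqp : q < p) : 0 < H.l := by
  refine Nat.pos_of_ne_zero fun e => ?_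
  have := H.al
  rw [e, zero_add, H.a1] at this
  nlinarith

theorem HJ.e_l (H : HJ (p ^ 2) (p * q - 1)) (hq : 0 < q) (hqp : q < p) :
    H.e H.l = p * (p - q) - 1 := by
  have hp : 0 < p ^ 2 := by nlinarith
  obtain ⟨h₁, h₂⟩ := H.last hp (wahl_coprime p q)
  have c := H.cong H.l.le_succ
  rw [h₁] at c
  have d : p ^ 2 ∣ H.e H.l - (p * (p - q) - 1) := (wahl_coprime p q).dvd_of_dvd_mul_left
    ((dvd_add c (Dvd.intro (q * (p - q) - 1) rfl)).neg_right.trans (dvd_of_eq (by ring)))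
  have l₁ := H.e_nonneg H.l.le_succ
  have l₂ := H.e_lt (le_refl H.l)
  have := Int.eq_zero_of_abs_lt_dvd d (abs_lt.2 ⟨by nlinarith, by nlinarith⟩)
  linarith

theorem HJ.c_one_add (H : HJ (p ^ 2) (p * q - 1)) (hq : 0 < q) (hqp : q < p) :
    H.c 1 + H.c H.l = p ^ 2 := by
  rw [HJ.c, HJ.c, H.a1, H.e1, H.e_l hq hqp, (H.last (by nlinarith) (wahl_coprime p q)).1]
  ring

/-- All log discrepancies have denominator `p`. -/
theorem HJ.dvd_c (H : HJ (p ^ 2) (p * q - 1)) {j : ℕ} (hj : j ≤ H.l + 1) : p ∣ H.c j :=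
  (dvd_add ((dvd_pow_self p two_ne_zero).trans (H.cong hj)) (Dvd.intro (q * H.e j) rfl)).trans
    (dvd_of_eq (by rw [HJ.c]; ring))

/-- A coprime `q` may be reduced modulo `p`. -/
theorem reduce_q (hp : 2 ≤ p) (hc : IsCoprime p q) :
    0 < q % p ∧ q % p < p ∧ IsCoprime p (q % p) ∧ p ^ 2 ∣ (p * q - 1) - (p * (q % p) - 1) := by
  have h₁ := Int.emod_nonneg q (show p ≠ 0 by omega)
  have h₂ : IsCoprime p (q % p) := by
    rw [Int.emod_def]
    exact IsCoprime.sub_mul_left_right_iff.2 hc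
  refine ⟨lt_of_le_of_ne h₁ fun e => ?_, Int.emod_lt_of_pos q (by omega), h₂,
    ⟨q / p, by rw [Int.emod_def]; ring⟩⟩
  rw [← e, isCoprime_zero_right, Int.isUnit_iff] at h₂
  omega

end Wahl

end Pool.Agent.Lib.MP_1c0d65_gt.G
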