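import Pool.Agent.Lib.MP_1c0d65_gt.Core

/-! An anticanonical cycle with its intersection table: basic facts. -/

set_option autoImplicit false

namespace Pool.Agent.Lib.MP_1c0d65_gt.G

open Finset Module

/-- curves `S` with classes `c`, table `I`, multiplicities `μ`, defects `df` -/
structure Tab (V : Type) [AddCommGroup V] [Module ℝ V] (S : Type) [Fintype S] where
  B : LinearMap.BilinForm ℝ V
  c : S → V
  I : S → S → ℤ
  μ : S → ℤ
  df : S → ℤ
  symm : ∀ x y, B x y = B y x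
  hodge : ∀ x y, 0 < B x x → B x y = 0 → y ≠ 0 → B y y < 0
  hI : ∀ x y, B (c x) (c y) = I x y
  nn : ∀ x y, x ≠ y → 0 ≤ I x y
  μ1 : ∀ x, 1 ≤ μ x
  df0 : ∀ x, 0 ≤ df x
  adj : ∀ x, ∑ y, μ y * I x y = 2 - df x + I x x

variable {V : Type} [AddCommGroup V] [Module ℝ V] {S : Type} [Fintype S] [DecidableEq S]

namespace Tab

variable (X : Tab V S)

omit [DecidableEq S] in
theorem I_comm (x y : S) : X.I x y = X.I y x := by
  have := X.symm (X.c x) (X.c y)
  rw [X.hI, X.hI] at this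
  exact_mod_cast this

/-- a combination of curves -/
def cb (a : S → ℝ) : V := ∑ y, a y • X.c y

omit [DecidableEq S] in
theorem B_cb (a : S → ℝ) (z : S) : X.B (X.cb a) (X.c z) = ∑ y, a y * X.I z y := by
  simp only [cb, map_sum, map_smul, LinearMap.sum_apply, LinearMap.smul_apply, smul_eq_mul, X.hI]
  exact sum_congr rfl fun y _ => by rw [X.I_comm]

omit [DecidableEq S] in
theorem B_cb_cb (a b : S → ℝ) : X.B (X.cb a) (X.cb b) = ∑ z, b z * ∑ y, a y * X.I z y := by
  conv_lhs => rw [show X.cb b = ∑ y, b y • X.c y from rfl]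
  simp only [map_sum, map_smul, smul_eq_mul, B_cb]

theorem sum_le_nb (x : S) {T : Finset S} (hx : x ∉ T) :
    ∑ y ∈ T, X.μ y * X.I x y ≤ 2 - X.df x - (X.μ x - 1) * X.I x x := by
  have h := X.adj x
  rw [← add_sum_erase _ _ (mem_univ x)] at h
  have : ∑ y ∈ T, X.μ y * X.I x y ≤ ∑ y ∈ univ.erase x, X.μ y * X.I x y :=
    sum_le_sum_of_subset_of_nonneg (fun y hy => mem_erase.2 ⟨fun e => hx (e ▸ hy), mem_univ _⟩)
      fun y hy _ => mul_nonneg (by linarith [X.μ1 y]) (X.nn _ _ (ne_of_mem_erase hy).symm)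
  linarith

theorem one_le_nb {x y : S} (h : x ≠ y) :
    X.μ y * X.I x y ≤ 2 - X.df x - (X.μ x - 1) * X.I x x := by
  simpa using X.sum_le_nb x (T := {y}) (by simpa using h)

theorem two_le_nb {x y z : S} (h : x ≠ y) (h' : x ≠ z) (h'' : y ≠ z) :
    X.μ y * X.I x y + X.μ z * X.I x z ≤ 2 - X.df x - (X.μ x - 1) * X.I x x := by
  have := X.sum_le_nb x (T := {y, z}) (by simp [h, h'])
  rwa [sum_pair h''] at this

omit [DecidableEq S] in
theorem abs_sq (a : S → ℝ) :
    X.B (X.cb a) (X.cb a) ≤ X.B (X.cb fun y => |a y|) (X.cb fun y => |a y|) := by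
  simp only [B_cb_cb, mul_sum]
  refine sum_le_sum fun z _ => sum_le_sum fun y _ => ?_
  by_cases h : z = y
  · subst h
    rw [← mul_assoc, ← mul_assoc, abs_mul_abs_self]
  · rw [← mul_assoc, ← mul_assoc, ← abs_mul]
    exact mul_le_mul_of_nonneg_right (le_abs_self _) (by exact_mod_cast X.nn _ _ h)

omit [DecidableEq S] in
theorem zar {a : S → ℝ} (ha : ∀ y, 0 ≤ a y) {z : S} (h : X.B (X.cb a) (X.c z) = 0) (hz : a z = 0)
    {y : S} (hy : 0 < X.I y z) : a y = 0 := by
  rw [B_cb, sum_eq_zero_iff_of_nonneg] at h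
  · have := h y (mem_univ _)
    rw [X.I_comm] at this
    exact (mul_eq_zero.1 this).resolve_right (by exact_mod_cast hy.ne')
  · intro w _
    by_cases e : z = w
    · rw [← e, hz, zero_mul]
    · exact mul_nonneg (ha w) (by exact_mod_cast X.nn _ _ e)

theorem card_le [FiniteDimensional ℝ V] (F : Finset S)
    (h : ∀ a : S → ℝ, (∀ y ∉ F, a y = 0) → X.cb a = 0 → ∀ y, a y = 0) :
    F.card ≤ finrank ℝ V := by
  have : LinearIndependent ℝ fun y : F => X.c y := by
    rw [Fintype.linearIndependent_iff]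
    intro g hg y
    have := h (fun y => if hy : y ∈ F then g ⟨y, hy⟩ else 0) (fun y hy => dif_neg hy) ?_ y
    · simpa using this
    · rw [← hg, cb, ← sum_subset (subset_univ F) (fun y _ hy => by simp [hy]), ← sum_coe_sort]
      simp
  simpa using this.fintype_card_le_finrank

/-- the configuration is connected -/
def Conn : Prop :=
  ∀ U : S → Prop, (∀ x y, U x → x ≠ y → 0 < X.I x y → U y) → ∀ x, U x → ∀ y, U y

/-- `x` meets only `s`, once, and `s` has multiplicity two -/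
def Leaf (x s : S) : Prop :=
  x ≠ s ∧ X.μ s = 2 ∧ X.I x s = 1 ∧ ∀ z, x ≠ z → 0 < X.I x z → z = s

variable {X}

theorem leaf_of {x y : S} (h0 : 0 ≤ (X.μ x - 1) * X.I x x) (h : x ≠ y) (hy : 2 ≤ X.μ y)
    (hI : 0 < X.I x y) : X.Leaf x y ∧ X.df x = 0 ∧ (X.μ x - 1) * X.I x x = 0 := by
  have h1 := X.one_le_nb h
  have h2 := X.df0 x
  have h3 : 2 ≤ X.μ y * X.I x y := by nlinarith
  refine ⟨⟨h, by nlinarith, by nlinarith, fun z hz hI' => ?_⟩, by linarith, by linarith⟩
  by_contra e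
  have := X.two_le_nb h hz (Ne.symm e)
  nlinarith [X.μ1 z]

/-- two adjacent reduced curves: everything is reduced -/
theorem reduced (hc : X.Conn) {x y : S} (h : x ≠ y) (hx : X.μ x = 1) (hy : X.μ y = 1)
    (hI : 0 < X.I x y) (z : S) : X.μ z = 1 := by
  refine (hc (fun x => X.μ x = 1 ∧ ∃ y, x ≠ y ∧ X.μ y = 1 ∧ 0 < X.I x y) ?_ x
    ⟨hx, y, h, hy, hI⟩ z).1
  rintro x z ⟨hx, y, h, hy, hI⟩ hz hI'
  refine ⟨?_, x, hz.symm, hx, by rwa [X.I_comm]⟩
  by_cases e : y = z
  · rwa [← e]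
  · have := X.two_le_nb h hz e
    rw [hx, hy] at this
    nlinarith [X.μ1 z, X.df0 x]

theorem card_reduced [FiniteDimensional ℝ V] (hc : X.Conn) (hμ : ∀ z, X.μ z = 1) {x y : S}
    (h : x ≠ y) (hI : 0 < X.I x y) : Fintype.card S ≤ finrank ℝ V + 2 := by
  refine kernel (B := X.B) (c := X.c) X.symm (S := univ) (fun a b e => ?_)
    (fun a b => ⟨_, X.hI a b⟩) (fun a _ => ?_) (mem_univ x) (mem_univ y) h.symm ?_ ?_
  · rw [X.hI]; exact_mod_cast X.nn _ _ e
  · have := X.sum_le_nb a (notMem_erase a univ)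
    simp only [hμ, one_mul, sub_self, zero_mul, sub_zero] at this
    simp only [X.hI]
    have h2 := X.df0 a
    exact_mod_cast this.trans (by linarith)
  · rw [X.hI]; exact_mod_cast hI.ne'
  · intro U h0 hU z _
    refine hc U (fun a b ha _ hab => ?_) x h0 z
    by_contra e
    have := hU a (mem_univ _) ha b (mem_univ _) e
    rw [X.hI] at this
    exact hab.ne' (by exact_mod_cast this)

omit [DecidableEq S] in
/-- the orthogonal of a nonzero null vector is negative semidefinite -/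
theorem prop_of_null {m f v : V} (hm : 0 < X.B m m) (hf : X.B f f = 0) (hf0 : f ≠ 0)
    (hv : X.B f v = 0) (h : 0 ≤ X.B v v) : ∃ t : ℝ, v = t • f := by
  have h1 : X.B m f ≠ 0 := fun e => (X.hodge m f hm e hf0).ne hf
  by_contra! e
  have := X.hodge m (v - (X.B m v / X.B m f) • f) hm (by simp [div_mul_cancel₀ _ h1])
    (sub_ne_zero.2 (e _))
  simp only [map_sub, map_smul, LinearMap.sub_apply, LinearMap.smul_apply, smul_eq_mul, hf, hv,
    X.symm v f] at this
  linarith

end Tab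

end Pool.Agent.Lib.MP_1c0d65_gt.G
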